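import Pool.Agent.Helper85.QT.St2
import Pool.Agent.Helper80.Bieb.AreaUpper
import Pool.Agent.Helper71.TU.X5aux

/-!
# Project QT (MP_d112a4_gt), module GLS: points of small height are near the limit set
-/

set_option autoImplicit false

open MeasureTheory Matrix Set Topology
open scoped ENNReal ComplexConjugate

namespace Pool.Agent.Helper81.QT

open Pool.Agent.Helper85.QT Pool.Agent.Helper86.QA

/-- holomorphic inverse -/
private theorem inv_holo (F : ℂ → ℂ) (A : Set ℂ) (hA : IsOpen A) (hd : DifferentiableOn ℂ F A)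
    (hi : InjOn F A) : ∃ G : ℂ → ℂ, (∀ z ∈ A, G (F z) = z) ∧
      ∀ z ∈ A, HasDerivAt G (deriv F z)⁻¹ (F z) := by
  have hinv : ∀ z ∈ A, Function.invFunOn F A (F z) = z := by
    intro z hz
    have h1 : ∃ a ∈ A, F a = F z := ⟨z, hz, rfl⟩
    exact hi (Function.invFunOn_mem h1) hz (Function.invFunOn_eq h1)
  refine ⟨Function.invFunOn F A, hinv, ?_⟩
  intro z hz
  have hne : deriv F z ≠ 0 := Pool.TU.X5.deriv_ne_zero_of_injOn hA hd hi hz
  have hopen : ∀ V : Set ℂ, IsOpen V → IsOpen (F '' (V ∩ A)) := fun V hV =>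
    Pool.Agent.Helper80.Bieb.isOpen_image_of_injOn (hV.inter hA) (hd.mono inter_subset_right)
      (hi.mono inter_subset_right)
  have hcont : ContinuousAt (Function.invFunOn F A) (F z) := by
    rw [continuousAt_def, hinv z hz]
    intro U hU
    obtain ⟨V, hVU, hVo, hzV⟩ := mem_nhds_iff.mp hU
    refine Filter.mem_of_superset ((hopen V hVo).mem_nhds ⟨z, ⟨hzV, hz⟩, rfl⟩) ?_
    rintro _ ⟨a, ⟨haV, haA⟩, rfl⟩
    rw [mem_preimage, hinv a haA]
    exact hVU haV
  refine HasDerivAt.of_local_left_inverse (f := F) hcont ?_ hne ?_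
  · rw [hinv z hz]
    exact ((hd z hz).differentiableAt (hA.mem_nhds hz)).hasDerivAt
  · have h1 : F '' (univ ∩ A) ∈ 𝓝 (F z) := (hopen univ isOpen_univ).mem_nhds ⟨z, ⟨trivial, hz⟩, rfl⟩
    filter_upwards [h1] with y hy
    obtain ⟨a, ⟨-, haA⟩, rfl⟩ := hy
    rw [hinv a haA]

private theorem Sm_open (M : ℝ) : IsOpen (Sm M) :=
  (isOpen_lt continuous_const Complex.continuous_im).inter
    (isOpen_lt Complex.continuous_im continuous_const)

/-- a ball in a strip -/
private theorem ball_strip {M : ℝ} {w : ℂ} {s : ℝ} (hw : w ∈ Sm M)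
    (h : Metric.ball w s ⊆ Sm M) : s ≤ dd M w := by
  have hw1 : 0 < w.im := hw.1
  have hw2 : w.im < M := hw.2
  unfold dd
  refine le_min ?_ ?_
  · by_contra hlt
    push Not at hlt
    have h1 : w - ((w.im : ℝ) : ℂ) * Complex.I ∈ Metric.ball w s := by
      rw [Metric.mem_ball, dist_eq_norm]
      have e : w - ((w.im : ℝ) : ℂ) * Complex.I - w = -(((w.im : ℝ) : ℂ) * Complex.I) := by ring
      rw [e, norm_neg, norm_mul, Complex.norm_I, mul_one, Complex.norm_real, Real.norm_eq_abs,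
        abs_of_pos hw1]
      exact hlt
    have h2 := (h h1).1
    simp at h2
  · by_contra hlt
    push Not at hlt
    have h1 : w + ((M - w.im : ℝ) : ℂ) * Complex.I ∈ Metric.ball w s := by
      rw [Metric.mem_ball, dist_eq_norm, add_sub_cancel_left, norm_mul, Complex.norm_I, mul_one,
        Complex.norm_real, Real.norm_eq_abs, abs_of_pos (by linarith)]
      exact hlt
    have h2 := (h h1).2
    simp at h2

/-- the claim -/
private theorem claim (hKQ : StKQ) {M : ℝ} {G : ℂ → ℂ} (hG : HN M G) {w : ℂ} (hw : w ∈ Sm M)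
    {R : ℝ} (hR : 1 < R) (hb : Metric.ball (G w) R ⊆ G '' Sm M) : R ≤ 4 * dd M w + 2 := by
  obtain ⟨-, -, k3, k4⟩ := hKQ
  obtain ⟨h, h1, h2⟩ := inv_holo G (Sm M) (Sm_open M) hG.dif hG.inj
  have hR0 : 0 < R := by linarith
  have hd : DifferentiableOn ℂ h (Metric.ball (G w) R) := by
    intro z hz
    obtain ⟨a, ha, rfl⟩ := hb hz
    exact (h2 a ha).differentiableAt.differentiableWithinAt
  have hi : InjOn h (Metric.ball (G w) R) := by
    intro z hz z' hz' he
    obtain ⟨a, ha, rfl⟩ := hb hz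
    obtain ⟨a', ha', rfl⟩ := hb hz'
    rw [h1 a ha, h1 a' ha'] at he
    rw [he]
  have hw1 : w + 1 ∈ Sm M := by
    constructor
    · have := hw.1; simpa using this
    · have := hw.2; simpa using this
  have hmem : G w + 1 ∈ Metric.ball (G w) R := by
    rw [Metric.mem_ball, dist_eq_norm, add_sub_cancel_left, norm_one]
    exact hR
  have g1 := (k4 h (G w) R hR0 hd hi (G w + 1) hmem).2
  have e1 : h (G w + 1) = w + 1 := by rw [← hG.per w hw, h1 _ hw1]
  rw [e1, h1 w hw, add_sub_cancel_left, add_sub_cancel_left, norm_one, mul_one] at g1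
  have hp : 0 < 1 - 1 / R := by
    have : 1 / R < 1 := by rw [div_lt_one hR0]; exact hR
    linarith
  rw [le_div_iff₀ (by positivity), one_mul] at g1
  have g2 := k3 h (G w) R hR0 hd hi
  rw [h1 w hw] at g2
  have g3 : Metric.ball w (R * ‖deriv h (G w)‖ / 4) ⊆ Sm M := by
    intro z hz
    obtain ⟨y, hy, rfl⟩ := g2 hz
    obtain ⟨a, ha, rfl⟩ := hb hy
    rw [h1 a ha]
    exact ha
  have g4 := ball_strip hw g3
  have g5 : R * (1 - 1 / R) ^ 2 / 4 ≤ dd M w := by
    refine le_trans ?_ g4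
    have := mul_le_mul_of_nonneg_left g1 hR0.le
    linarith
  have g6 : R * (1 - 1 / R) ^ 2 = R - 2 + 1 / R := by
    field_simp
    ring
  rw [g6] at g5
  have : 0 < 1 / R := by positivity
  linarith

theorem hGLS (hKQ : StKQ) (hANB : StANB) : StGLS := by
  intro Γ _ ρ A B α lam M G m φ C3 hA w hw
  obtain ⟨hlam, hG, -, -, -, -, -, -, -, -, hlat, -, -, -, -⟩ :=
    hANB Γ ρ A B α lam M G m φ C3 hA
  have hopen : IsOpen (G '' Sm M) :=
    Pool.Agent.Helper80.Bieb.isOpen_image_of_injOn (Sm_open M) hG.dif hG.inj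
  have hw0 : 0 < dd M w := lt_min hw.1 (by have := hw.2; linarith)
  have hne : (G '' Sm M)ᶜ.Nonempty := by
    by_contra hem
    rw [Set.not_nonempty_iff_eq_empty, Set.compl_empty_iff] at hem
    have h1 := claim hKQ hG hw (R := 4 * dd M w + 3) (by linarith)
      (by rw [hem]; exact subset_univ _)
    linarith
  obtain ⟨ζ, hζ, hdist⟩ := hopen.isClosed_compl.exists_infDist_eq_dist hne (G w)
  set R0 := Metric.infDist (G w) (G '' Sm M)ᶜ with hR0
  have hGw : G w ∈ G '' Sm M := ⟨w, hw, rfl⟩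
  have hpos : 0 < R0 := by
    rw [hR0]
    exact (hopen.isClosed_compl.notMem_iff_infDist_pos hne).1 (fun h => h hGw)
  have hball : Metric.ball (G w) R0 ⊆ G '' Sm M := by
    intro z hz
    by_contra hz'
    have h1 : R0 ≤ dist (G w) z := Metric.infDist_le_dist_of_mem hz'
    rw [Metric.mem_ball, dist_comm] at hz
    linarith
  have hle : R0 ≤ 4 * dd M w + 2 := by
    by_cases h1 : 1 < R0
    · exact claim hKQ hG hw h1 hball
    · push Not at h1
      linarith
  refine ⟨ζ, ?_, by rw [← dist_eq_norm, ← hdist]; exact hle⟩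
  -- `ζ` is a limit of points of the image
  have hcl : ζ ∈ closure (G '' Sm M) := by
    refine closure_mono hball ?_
    rw [closure_ball _ hpos.ne', Metric.mem_closedBall, dist_comm, ← hdist]
  have hmaps : ∀ z ∈ G '' Sm M, Complex.exp (lam * z) ∈ A := by
    rintro _ ⟨a, ha, rfl⟩
    exact hA.Gb.mapsTo ha
  have hcont : Continuous (fun z : ℂ => Complex.exp (lam * z)) := by fun_prop
  intro hAB
  rcases hAB with hAm | hBm
  · obtain ⟨w1, hw1, he⟩ := hA.Gb.surjOn hAm
    have he' : Complex.exp (lam * ζ) = Complex.exp (lam * G w1) := he.symm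
    rw [Complex.exp_eq_exp_iff_exists_int] at he'
    obtain ⟨k, hk⟩ := he'
    have hζk : ζ = G w1 + k * (2 * Real.pi * Complex.I / lam) := by
      field_simp
      linear_combination hk
    -- the translate contains `ζ`
    have hU : IsOpen ((fun z : ℂ => z - k * (2 * Real.pi * Complex.I / lam)) ⁻¹' (G '' Sm M)) :=
      hopen.preimage (by fun_prop)
    have hζU : ζ ∈ (fun z : ℂ => z - k * (2 * Real.pi * Complex.I / lam)) ⁻¹' (G '' Sm M) := by
      rw [mem_preimage, hζk, add_sub_cancel_right]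
      exact ⟨w1, hw1, rfl⟩
    obtain ⟨y, hy1, hy2⟩ := mem_closure_iff.1 hcl _ hU hζU
    obtain ⟨w3, hw3, hy3⟩ := hy1
    obtain ⟨w2, hw2, rfl⟩ := hy2
    have hrel : G w2 = G w3 + (0 : ℤ) + k * (2 * Real.pi * Complex.I / lam) := by
      have hy4 : G w3 = G w2 - k * (2 * Real.pi * Complex.I / lam) := hy3
      rw [hy4]
      push_cast
      ring
    have hk0 : k = 0 := (hlat w2 hw2 w3 hw3 0 k hrel).2
    rw [hk0] at hζk
    apply hζ
    refine ⟨w1, hw1, ?_⟩
    rw [hζk]
    push_cast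
    ring
  · have hU : IsOpen ((fun z : ℂ => Complex.exp (lam * z)) ⁻¹' B) :=
      hA.kd.opB.preimage hcont
    obtain ⟨y, hy1, hy2⟩ := mem_closure_iff.1 hcl _ hU hBm
    exact Set.disjoint_left.1 hA.kd.dis (hmaps y hy2) hy1

end Pool.Agent.Helper81.QT
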