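import Pool.Agent.Helper85.QT.St3

/-!
Project QT (MP_d112a4_gt), module TIN: the part of a geodesic outside the tube.
-/

set_option autoImplicit false

open MeasureTheory Matrix Set Topology
open scoped ENNReal ComplexConjugate

namespace Pool.Agent.Helper81.QT

open Pool.Agent.Helper85.QT Pool.Agent.Helper86.QA

private theorem cosh_ge_half_exp_abs (x : ℝ) : Real.exp |x| ≤ 2 * Real.cosh x := by
  rw [← Real.cosh_abs, Real.cosh_eq]
  have := Real.exp_pos (-|x|)
  linarith

private theorem cosh_le_exp_abs (x : ℝ) : Real.cosh x ≤ Real.exp |x| := by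
  rw [← Real.cosh_abs, Real.cosh_eq]
  have : Real.exp (-|x|) ≤ Real.exp |x| := Real.exp_le_exp.2 (by linarith [abs_nonneg x])
  linarith

/-- the integral of the exponential bound -/
private theorem int_bound (C cen v : ℝ) (hC : 0 ≤ C) (hv : 0 ≤ v) :
    ∫⁻ u in (Iic (cen - v) ∪ Ici (cen + v)),
      ENNReal.ofReal (C * Real.exp (-2 * (|u - cen| - v))) ≤ ENNReal.ofReal C := by
  have h1 : ∫⁻ u in Iic (cen - v), ENNReal.ofReal (C * Real.exp (-2 * (|u - cen| - v))) =
      ENNReal.ofReal (C / 2) := by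
    have e1 : ∀ u ∈ Iic (cen - v), ENNReal.ofReal (C * Real.exp (-2 * (|u - cen| - v))) =
        ENNReal.ofReal (C * Real.exp (-2 * cen + 2 * v) * Real.exp (2 * u)) := by
      intro u hu
      have hu' : u - cen ≤ 0 := by
        have : u ≤ cen - v := hu
        linarith
      rw [abs_of_nonpos hu', mul_assoc, ← Real.exp_add]
      congr 3
      ring
    rw [setLIntegral_congr_fun measurableSet_Iic e1, ← ofReal_integral_eq_lintegral_ofReal
      ((integrableOn_exp_mul_Iic (by norm_num : (0 : ℝ) < 2) _).const_mul _)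
      (Filter.Eventually.of_forall fun u => by positivity), integral_const_mul,
      integral_exp_mul_Iic (by norm_num : (0 : ℝ) < 2)]
    congr 1
    rw [mul_assoc, ← mul_div_assoc, ← Real.exp_add,
      show -2 * cen + 2 * v + 2 * (cen - v) = 0 by ring, Real.exp_zero]
    ring
  have h2 : ∫⁻ u in Ici (cen + v), ENNReal.ofReal (C * Real.exp (-2 * (|u - cen| - v))) =
      ENNReal.ofReal (C / 2) := by
    have e1 : ∀ u ∈ Ioi (cen + v), ENNReal.ofReal (C * Real.exp (-2 * (|u - cen| - v))) =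
        ENNReal.ofReal (C * Real.exp (2 * cen + 2 * v) * Real.exp (-2 * u)) := by
      intro u hu
      have hu' : 0 ≤ u - cen := by
        have : cen + v < u := hu
        linarith
      rw [abs_of_nonneg hu', mul_assoc, ← Real.exp_add]
      congr 3
      ring
    rw [setLIntegral_congr Ioi_ae_eq_Ici.symm,
      setLIntegral_congr_fun measurableSet_Ioi e1, ← ofReal_integral_eq_lintegral_ofReal
      ((integrableOn_exp_mul_Ioi (by norm_num : (-2 : ℝ) < 0) _).const_mul _)
      (Filter.Eventually.of_forall fun u => by positivity), integral_const_mul,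
      integral_exp_mul_Ioi (by norm_num : (-2 : ℝ) < 0)]
    congr 1
    rw [mul_assoc, ← mul_div_assoc, mul_neg, ← Real.exp_add,
      show 2 * cen + 2 * v + -2 * (cen + v) = 0 by ring, Real.exp_zero]
    ring
  refine (lintegral_union_le _ _ _).trans ?_
  rw [h1, h2, ← ENNReal.ofReal_add (by positivity) (by positivity)]
  apply le_of_eq
  congr 1
  ring

private theorem exists_cosh (W : ℝ) (hW : 1 ≤ W) : ∃ v : ℝ, 0 ≤ v ∧ Real.cosh (2 * v) = W := by
  have h1 : W ∈ Icc (Real.cosh (2 * 0)) (Real.cosh (2 * W)) := by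
    constructor
    · simpa using hW
    · have := cosh_ge_half_exp_abs (2 * W)
      have h2 := Real.add_one_le_exp |2 * W|
      rw [abs_of_nonneg (by linarith)] at *
      linarith
  obtain ⟨v, hv, hv'⟩ := intermediate_value_Icc (show (0 : ℝ) ≤ W by linarith)
    (f := fun v => Real.cosh (2 * v)) (by fun_prop) h1
  exact ⟨v, hv.1, hv'⟩

/-- the analytic core -/
private theorem core (c0 L q K2 : ℝ) (hc0 : 1 ≤ c0) (hL : 64 * c0 ^ 2 ≤ L) (hK : 2 ≤ K2)
    (hq : K2 - 2 ≤ q) : ∃ v : ℝ, 0 ≤ v ∧ ∀ u : ℝ,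
      q * L / (2 * Real.cosh (2 * u) + K2) ≤ 4 * c0 ^ 2 → v ≤ |u| ∧
        q * L / (2 * Real.cosh (2 * u) + K2) ≤ 24 * c0 ^ 2 * Real.exp (-2 * (|u| - v)) := by
  have hc2 : 0 < c0 ^ 2 := by positivity
  set Y : ℝ := (q * L / (4 * c0 ^ 2) - K2) / 2 with hY
  have hqL : q * L = 4 * c0 ^ 2 * (2 * Y + K2) := by
    rw [hY]
    field_simp
    ring
  obtain ⟨v, hv0, hvW⟩ := exists_cosh (max Y 1) (le_max_right _ _)
  have hKW : K2 ≤ 4 * max Y 1 := by
    by_cases h4 : K2 ≤ 4
    · have := le_max_right Y 1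
      linarith
    · push Not at h4
      have h5 : K2 / 2 ≤ q := by linarith
      have h6 : K2 / 2 * (64 * c0 ^ 2) ≤ q * L := by
        apply mul_le_mul h5 hL (by positivity) (by linarith)
      rw [hqL] at h6
      have h7 : 8 * K2 ≤ 2 * Y + K2 := by
        by_contra hcon
        push Not at hcon
        nlinarith
      have := le_max_left Y 1
      linarith
  refine ⟨v, hv0, fun u hu => ?_⟩
  have hcu : 0 < Real.cosh (2 * u) := Real.cosh_pos _
  have hden : 0 < 2 * Real.cosh (2 * u) + K2 := by linarith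
  have h1 : Y ≤ Real.cosh (2 * u) := by
    rw [div_le_iff₀ hden, hqL] at hu
    have := le_of_mul_le_mul_left hu (by positivity)
    linarith
  have h2 : max Y 1 ≤ Real.cosh (2 * u) := max_le h1 (Real.one_le_cosh _)
  constructor
  · rw [← hvW, Real.cosh_le_cosh] at h2
    rw [abs_mul, abs_mul, abs_of_nonneg hv0, abs_of_pos (show (0 : ℝ) < 2 by norm_num)] at h2
    linarith
  · rw [div_le_iff₀ hden, hqL]
    have h3 : 2 * Y + K2 ≤ 6 * max Y 1 := by
      have := le_max_left Y 1
      linarith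
    have h4 : max Y 1 ≤ Real.exp (2 * v) := by
      rw [← hvW]
      have := cosh_le_exp_abs (2 * v)
      rwa [abs_of_nonneg (by linarith)] at this
    have h5 : Real.exp (2 * |u|) ≤ 2 * Real.cosh (2 * u) := by
      have := cosh_ge_half_exp_abs (2 * u)
      rwa [abs_mul, abs_of_pos (show (0 : ℝ) < 2 by norm_num)] at this
    have h6 : Real.exp (-2 * (|u| - v)) * Real.exp (2 * |u|) = Real.exp (2 * v) := by
      rw [← Real.exp_add]
      congr 1
      ring
    have h7 : Real.exp (2 * v) ≤ Real.exp (-2 * (|u| - v)) * (2 * Real.cosh (2 * u) + K2) := by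
      rw [← h6]
      apply mul_le_mul_of_nonneg_left _ (Real.exp_pos _).le
      linarith
    have h8 : 2 * Y + K2 ≤ 6 * (Real.exp (-2 * (|u| - v)) * (2 * Real.cosh (2 * u) + K2)) := by
      linarith
    have := mul_le_mul_of_nonneg_left h8 (show 0 ≤ 4 * c0 ^ 2 by positivity)
    linarith

theorem hTIN (hACT : Pool.Agent.Helper86.QA.StACT) (hTGF : Pool.Agent.Helper85.QT.StTGF) :
    Pool.Agent.Helper85.QT.StTIN := by
  intro c0 hc0 lam hlam hcl a b ha hb hab
  obtain ⟨-, -, hone, -⟩ := hACT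
  have hup : ∀ u : ℝ, gp a b u ∈ up := by
    intro u
    show 0 < (gp a b u).2
    simp only [gp]
    have : 0 < ‖a - b‖ := norm_pos_iff.2 (sub_ne_zero.2 hab)
    positivity
  have hT : ∀ u : ℝ, Tg (1 : Unit →* SL) lam 1 (gp a b u) = TT lam (gp a b u) := by
    intro u
    simp only [Tg, MonoidHom.one_apply]
    rw [hone _ (hup u)]
  have hpq : ∀ x : ℂ, pq (1 : Unit →* SL) 1 x = x := by
    intro x
    simp [pq]
  have hmb : ∀ x : ℂ, mb ((1 : Unit →* SL) (1 : Unit)⁻¹) x = x := by
    intro x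
    simp [mb]
  obtain ⟨t1, t2, t3, t4, t5⟩ := hTGF Unit (1 : Unit →* SL) lam hlam 1 a b hab
    (by rw [hpq]; exact ha) (by rw [hpq]; exact hb)
  set cn : ℝ := cen (1 : Unit →* SL) 1 a b with hcn
  simp only [hT, hmb] at t1 t2 t3 t4 t5
  have hla : 0 < ‖lam‖ := norm_pos_iff.2 hlam
  have hna : 0 < ‖a‖ := norm_pos_iff.2 ha
  have hnb : 0 < ‖b‖ := norm_pos_iff.2 hb
  constructor
  · set q : ℝ := ‖a - b‖ ^ 2 / (‖a‖ * ‖b‖) with hqdef
    set K2 : ℝ := ‖a‖ / ‖b‖ + ‖b‖ / ‖a‖ with hK2
    set L : ℝ := 1 / ‖lam‖ ^ 2 with hLdef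
    have hK2' : K2 = (‖a‖ ^ 2 + ‖b‖ ^ 2) / (‖a‖ * ‖b‖) := by
      rw [hK2]
      field_simp
    have hK2ge : 2 ≤ K2 := by
      rw [hK2', le_div_iff₀ (by positivity)]
      nlinarith [sq_nonneg (‖a‖ - ‖b‖)]
    have hq : K2 - 2 ≤ q := by
      rw [hK2', hqdef, sub_le_iff_le_add, div_add' _ _ _ (by positivity)]
      apply div_le_div_of_nonneg_right _ (by positivity)
      have h1 := abs_norm_sub_norm_le a b
      have h2 : (‖a‖ - ‖b‖) ^ 2 ≤ ‖a - b‖ ^ 2 := sq_le_sq' (by
        have := neg_abs_le (‖a‖ - ‖b‖)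
        linarith) ((le_abs_self _).trans h1)
      nlinarith
    have hL : 64 * c0 ^ 2 ≤ L := by
      rw [hLdef, le_div_iff₀ (by positivity)]
      have h0 : 0 ≤ 8 * c0 * ‖lam‖ := by positivity
      nlinarith
    obtain ⟨v, hv0, hv⟩ := core c0 L q K2 hc0 hL hK2ge hq
    have hTsq : ∀ u : ℝ, TT lam (gp a b u) ^ 2 =
        q * L / (2 * Real.cosh (2 * (u - cn)) + K2) := by
      intro u
      have e : 2 * Real.cosh (2 * (u - cn)) + ‖a‖ / ‖b‖ + ‖b‖ / ‖a‖ =
          2 * Real.cosh (2 * (u - cn)) + K2 := by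
        rw [hK2]
        ring
      have e2 : ∀ x l D : ℝ, x / (l * D) = x * (1 / l) / D := fun x l D => by
        rw [mul_one_div, div_div]
      rw [t1 u, e]
      exact e2 _ _ _
    have hms : MeasurableSet {u : ℝ | TT lam (gp a b u) ≤ 2 * c0} :=
      (isClosed_le t3 continuous_const).measurableSet
    have hle : ∀ u ∈ {u : ℝ | TT lam (gp a b u) ≤ 2 * c0}, v ≤ |u - cn| ∧
        TT lam (gp a b u) ^ 2 ≤ 24 * c0 ^ 2 * Real.exp (-2 * (|u - cn| - v)) := by
      intro u hu
      have hu' : TT lam (gp a b u) ≤ 2 * c0 := hu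
      have h4 : TT lam (gp a b u) ^ 2 ≤ 4 * c0 ^ 2 := by
        have := pow_le_pow_left₀ (t2 u).le hu' 2
        linarith
      rw [hTsq] at h4 ⊢
      exact hv (u - cn) h4
    calc ∫⁻ u in {u : ℝ | TT lam (gp a b u) ≤ 2 * c0}, ENNReal.ofReal (TT lam (gp a b u) ^ 2)
        ≤ ∫⁻ u in {u : ℝ | TT lam (gp a b u) ≤ 2 * c0},
            ENNReal.ofReal (24 * c0 ^ 2 * Real.exp (-2 * (|u - cn| - v))) :=
          setLIntegral_mono' hms fun u hu => ENNReal.ofReal_le_ofReal (hle u hu).2
      _ ≤ ∫⁻ u in (Iic (cn - v) ∪ Ici (cn + v)),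
            ENNReal.ofReal (24 * c0 ^ 2 * Real.exp (-2 * (|u - cn| - v))) := by
          apply lintegral_mono_set
          intro u hu
          have h1 := (hle u hu).1
          rcases le_or_gt 0 (u - cn) with h2 | h2
          · right
            rw [abs_of_nonneg h2] at h1
            show cn + v ≤ u
            linarith
          · left
            rw [abs_of_neg h2] at h1
            show u ≤ cn - v
            linarith
      _ ≤ ENNReal.ofReal (24 * c0 ^ 2) := int_bound _ _ _ (by positivity) hv0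
  · obtain ⟨R, hR⟩ := t5 (2 * c0) (by linarith)
    apply ne_top_of_le_ne_top (b := volume (Icc (cn - R) (cn + R)))
    · rw [Real.volume_Icc]
      exact ENNReal.ofReal_ne_top
    · apply measure_mono
      intro u hu
      have hu' : 2 * c0 < TT lam (gp a b u) := hu
      have h1 : |u - cn| < R := by
        by_contra hcon
        exact absurd (hR u (not_lt.1 hcon)) (not_lt.2 hu'.le)
      rw [abs_lt] at h1
      exact ⟨by linarith, by linarith⟩

end Pool.Agent.Helper81.QT
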